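import Pool.Agent.K1H14.SD.Stm2

/-! Project SD, piece LEF. -/

set_option autoImplicit false

namespace Pool.Agent.K1H97.SD

open Pool.Agent.K1H14.KS Pool.Agent.K1H14.SD Matrix

universe u

theorem vecMulVec_sq {N : ℕ} (v w : Fin N → ℂ) (h : w ⬝ᵥ v = 0) :
    vecMulVec v w * vecMulVec v w = 0 := by
  rw [vecMulVec_mul_vecMulVec, h, zero_smul, vecMulVec_zero]

theorem dot_skew {N : ℕ} (B : Matrix (Fin N) (Fin N) ℂ) (h : B.transpose = -B) (v : Fin N → ℂ) :
    (v ᵥ* B) ⬝ᵥ v = 0 := by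
  have h1 : (v ᵥ* B) ⬝ᵥ v = v ⬝ᵥ (B *ᵥ v) := (dotProduct_mulVec v B v).symm
  have h2 : v ᵥ* B = -(B *ᵥ v) := by
    rw [← mulVec_transpose, h, neg_mulVec]
  have h3 : (v ᵥ* B) ⬝ᵥ v = -(v ⬝ᵥ (B *ᵥ v)) := by
    rw [h2, neg_dotProduct, dotProduct_comm]
  have h4 : v ⬝ᵥ (B *ᵥ v) = 0 := by
    have h5 : v ⬝ᵥ (B *ᵥ v) = -(v ⬝ᵥ (B *ᵥ v)) := by rw [← h3, h1]
    have h6 : (2 : ℂ) * (v ⬝ᵥ (B *ᵥ v)) = 0 := by linear_combination h5
    exact (mul_eq_zero.1 h6).resolve_left two_ne_zero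
  rw [h1, h4]

theorem t_LEF (h1 : S_SIM.{u}) (h2 : S_INV) (h3 : S_SGN.{u}) (h4 : S_TRV) (h5 : S_NIL.{u}) :
    S_LEF.{u} := by
  intro A _ _ d M st n f s hM hd hK hs
  obtain ⟨N, ⟨φ⟩⟩ := h1 M st hM
  let τ : Matrix (Fin N) (Fin N) ℂ →ₗ[ℂ] Matrix (Fin N) (Fin N) ℂ :=
    φ.toLinearMap ∘ₗ st ∘ₗ φ.symm.toLinearMap
  have hτ0 : ∀ X, τ X = φ (st (φ.symm X)) := fun X => rfl
  have st1 : st 1 = 1 := by
    have h := hM.st_M ∅ (by simp)
    rw [hM.one] at h
    simpa using h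
  obtain ⟨B, hB, hBT, hτ⟩ := h2 N τ (fun x y => by rw [hτ0, hτ0, hτ0, map_mul, hM.st_mul, map_mul])
    (fun x => by rw [hτ0, hτ0, AlgEquiv.symm_apply_apply, hM.st_st, AlgEquiv.apply_symm_apply])
    (by rw [hτ0, map_one, st1, map_one])
  have hst : ∀ x, φ (st x) = B⁻¹ * (φ x).transpose * B := by
    intro x
    rw [← hτ, hτ0, AlgEquiv.symm_apply_apply]
  have hskew : B.transpose = -B := h3 M st N φ B hM hd hB hBT hst
  let H : Submonoid (Matrix (Fin N) (Fin N) ℂ) :=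
    { carrier := {X | Fixes (LinearMap.mulLeft ℂ (φ.symm X)) f}
      one_mem' := by
        intro v
        simp
      mul_mem' := by
        intro X Y hX hY v
        have hX' := hX (fun i => φ.symm Y * v i)
        have hY' := hY v
        simp only [LinearMap.mulLeft_apply] at hX' hY' ⊢
        rw [← hY', ← hX']
        congr 1
        funext i
        rw [map_mul, mul_assoc] }
  have hH : ∀ X, X ∈ H ↔ Fixes (LinearMap.mulLeft ℂ (φ.symm X)) f := fun X => Iff.rfl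
  have hφs : (φ s).transpose * B * φ s = B := by
    have h := congrArg φ hs
    rw [map_mul, map_one, hst s] at h
    have h' : B * (B⁻¹ * (φ s).transpose * B * φ s) = B * 1 := by rw [h]
    rw [mul_one, mul_assoc B⁻¹, mul_assoc B⁻¹, ← mul_assoc B, Matrix.mul_nonsing_inv B hB, one_mul] at h'
    exact h'
  have key := h4 N B (φ s) hskew hB hφs H (by
    intro v a
    rw [hH]
    obtain ⟨Y, hY⟩ : ∃ Y, Y = a • vecMulVec v (v ᵥ* B) := ⟨_, rfl⟩
    rw [← hY]
    have hYT : B⁻¹ * Y.transpose * B = -Y := by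
      have e1 : v ᵥ* B = -(B *ᵥ v) := by rw [← mulVec_transpose, hskew, neg_mulVec]
      have e2 : B⁻¹ *ᵥ (v ᵥ* B) = -v := by
        rw [e1, mulVec_neg, mulVec_mulVec, Matrix.nonsing_inv_mul B hB, one_mulVec]
      rw [hY, transpose_smul, transpose_vecMulVec, Matrix.mul_smul, Matrix.smul_mul,
        Matrix.mul_vecMulVec, e2, Matrix.vecMulVec_mul, Matrix.neg_vecMulVec, smul_neg]
    have hsk : st (φ.symm Y) = -(φ.symm Y) := by
      apply φ.injective
      rw [hst, AlgEquiv.apply_symm_apply, hYT, map_neg, AlgEquiv.apply_symm_apply]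
    have hsq : Y * Y = 0 := by
      rw [hY, Matrix.smul_mul, Matrix.mul_smul, vecMulVec_sq _ _ (dot_skew B hskew v), smul_zero,
        smul_zero]
    have hxx : φ.symm Y * φ.symm Y = 0 := by rw [← map_mul, hsq, map_zero]
    have h6 := h5 n (LinearMap.mulLeft ℂ (φ.symm Y)) f (fun w => by
      rw [LinearMap.mulLeft_apply, LinearMap.mulLeft_apply, ← mul_assoc, hxx, zero_mul])
      (hK _ hsk)
    have h7 : LinearMap.mulLeft ℂ (φ.symm (1 + Y)) =
        LinearMap.id + LinearMap.mulLeft ℂ (φ.symm Y) := by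
      ext w
      rw [LinearMap.add_apply, LinearMap.mulLeft_apply, LinearMap.mulLeft_apply, map_add, map_one,
        add_mul, one_mul, LinearMap.id_apply]
    rw [h7]
    exact h6)
  rw [hH, AlgEquiv.symm_apply_apply] at key
  exact key

end Pool.Agent.K1H97.SD
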